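import Mathlib
import Pool.Agent.Helper42.SOQ.Chi
import Pool.Agent.Helper42.SOQ.Local

/-!
# Tame class field theory modulo `p`: definitions
-/

set_option autoImplicit false

open NumberField IsDedekindDomain

open scoped Pointwise nonZeroDivisors

namespace Pool.Agent.Helper45.TC

section ideals

variable {K : Type} [Field K] [NumberField K]

/-- the order of the element `x` of `K` at the prime `v` (it is `0` for `x = 0`) -/
noncomputable def od (v : HeightOneSpectrum (𝓞 K)) (x : K) : ℤ :=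
  FractionalIdeal.count K v (FractionalIdeal.spanSingleton (𝓞 K)⁰ x)

/-- the norm of the prime `v` -/
noncomputable def nm (v : HeightOneSpectrum (𝓞 K)) : ℕ := Nat.card (𝓞 K ⧸ v.asIdeal)

/-- the value of the function `ψ` of the primes on the fractional ideal `I` -/
noncomputable def pr {p : ℕ} (ψ : HeightOneSpectrum (𝓞 K) → ZMod p)
    (I : FractionalIdeal (𝓞 K)⁰ K) : ZMod p :=
  ∑ᶠ v, ((FractionalIdeal.count K v I : ℤ) : ZMod p) * ψ v

/-- the value of the function `ψ` of the primes on the element `x` of `K` -/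
noncomputable def pe {p : ℕ} (ψ : HeightOneSpectrum (𝓞 K) → ZMod p) (x : K) : ZMod p :=
  pr ψ (FractionalIdeal.spanSingleton (𝓞 K)⁰ x)

lemma supp_fin {p : ℕ} (ψ : HeightOneSpectrum (𝓞 K) → ZMod p)
    (I : FractionalIdeal (𝓞 K)⁰ K) :
    (Function.support fun v => ((FractionalIdeal.count K v I : ℤ) : ZMod p) * ψ v).Finite := by
  refine (Filter.eventually_cofinite.1 (FractionalIdeal.finite_factors (K := K) I)).subset ?_
  intro v hv h
  apply hv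
  change ((FractionalIdeal.count K v I : ℤ) : ZMod p) * ψ v = 0
  rw [h, Int.cast_zero, zero_mul]

lemma pr_mul {p : ℕ} (ψ : HeightOneSpectrum (𝓞 K) → ZMod p) {I J : FractionalIdeal (𝓞 K)⁰ K}
    (hI : I ≠ 0) (hJ : J ≠ 0) : pr ψ (I * J) = pr ψ I + pr ψ J := by
  rw [pr, pr, pr, ← finsum_add_distrib (supp_fin ψ I) (supp_fin ψ J)]
  refine finsum_congr fun v => ?_
  rw [FractionalIdeal.count_mul K v hI hJ, Int.cast_add, add_mul]

lemma pr_one {p : ℕ} (ψ : HeightOneSpectrum (𝓞 K) → ZMod p) :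
    pr ψ (1 : FractionalIdeal (𝓞 K)⁰ K) = 0 := by
  rw [pr]
  refine finsum_eq_zero_of_forall_eq_zero fun v => ?_
  rw [FractionalIdeal.count_one, Int.cast_zero, zero_mul]

lemma pr_inv {p : ℕ} (ψ : HeightOneSpectrum (𝓞 K) → ZMod p) (I : FractionalIdeal (𝓞 K)⁰ K) :
    pr ψ I⁻¹ = - pr ψ I := by
  rw [pr, pr, ← finsum_neg_distrib]
  refine finsum_congr fun v => ?_
  rw [FractionalIdeal.count_inv, Int.cast_neg, neg_mul]

lemma pr_pow {p : ℕ} (ψ : HeightOneSpectrum (𝓞 K) → ZMod p) (I : FractionalIdeal (𝓞 K)⁰ K)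
    (n : ℕ) : pr ψ (I ^ n) = (n : ZMod p) * pr ψ I := by
  rw [pr, pr, mul_finsum' _ _ (supp_fin ψ I)]
  refine finsum_congr fun v => ?_
  rw [FractionalIdeal.count_pow, Int.cast_mul, Int.cast_natCast, mul_assoc]

lemma pr_zpow {p : ℕ} (ψ : HeightOneSpectrum (𝓞 K) → ZMod p) (I : FractionalIdeal (𝓞 K)⁰ K)
    (n : ℤ) : pr ψ (I ^ n) = (n : ZMod p) * pr ψ I := by
  rw [pr, pr, mul_finsum' _ _ (supp_fin ψ I)]
  refine finsum_congr fun v => ?_
  rw [FractionalIdeal.count_zpow, Int.cast_mul, mul_assoc]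

lemma pr_prime {p : ℕ} (ψ : HeightOneSpectrum (𝓞 K) → ZMod p) (v : HeightOneSpectrum (𝓞 K)) :
    pr ψ (v.asIdeal : FractionalIdeal (𝓞 K)⁰ K) = ψ v := by
  classical
  rw [pr, finsum_eq_single _ v, FractionalIdeal.count_self, Int.cast_one, one_mul]
  intro w hw
  rw [FractionalIdeal.count_maximal_coprime K w (Ne.symm hw), Int.cast_zero, zero_mul]

lemma pr_add {p : ℕ} (ψ θ : HeightOneSpectrum (𝓞 K) → ZMod p) (I : FractionalIdeal (𝓞 K)⁰ K) :
    pr (ψ + θ) I = pr ψ I + pr θ I := by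
  rw [pr, pr, pr, ← finsum_add_distrib (supp_fin ψ I) (supp_fin θ I)]
  refine finsum_congr fun v => ?_
  rw [Pi.add_apply, mul_add]

lemma pr_smul {p : ℕ} (c : ZMod p) (ψ : HeightOneSpectrum (𝓞 K) → ZMod p)
    (I : FractionalIdeal (𝓞 K)⁰ K) : pr (c • ψ) I = c * pr ψ I := by
  rw [pr, pr, mul_finsum' _ _ (supp_fin ψ I)]
  refine finsum_congr fun v => ?_
  rw [Pi.smul_apply, smul_eq_mul, mul_left_comm]

lemma pr_zero {p : ℕ} (I : FractionalIdeal (𝓞 K)⁰ K) :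
    pr (0 : HeightOneSpectrum (𝓞 K) → ZMod p) I = 0 := by
  rw [pr]
  exact finsum_eq_zero_of_forall_eq_zero fun v => by rw [Pi.zero_apply, mul_zero]

lemma spanSingleton_ne {x : K} (hx : x ≠ 0) :
    FractionalIdeal.spanSingleton (𝓞 K)⁰ x ≠ 0 := FractionalIdeal.spanSingleton_ne_zero_iff.2 hx

lemma od_mul (v : HeightOneSpectrum (𝓞 K)) {x y : K} (hx : x ≠ 0) (hy : y ≠ 0) :
    od v (x * y) = od v x + od v y := by
  rw [od, od, od, ← FractionalIdeal.spanSingleton_mul_spanSingleton,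
    FractionalIdeal.count_mul K v (spanSingleton_ne hx) (spanSingleton_ne hy)]

lemma od_one (v : HeightOneSpectrum (𝓞 K)) : od v (1 : K) = 0 := by
  rw [od, FractionalIdeal.spanSingleton_one, FractionalIdeal.count_one]

lemma od_inv (v : HeightOneSpectrum (𝓞 K)) (x : K) : od v x⁻¹ = - od v x := by
  rw [od, od, ← FractionalIdeal.count_inv, FractionalIdeal.spanSingleton_inv]

lemma od_pow (v : HeightOneSpectrum (𝓞 K)) (x : K) (n : ℕ) : od v (x ^ n) = n * od v x := by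
  rw [od, od, ← FractionalIdeal.spanSingleton_pow, FractionalIdeal.count_pow]

lemma pe_mul {p : ℕ} (ψ : HeightOneSpectrum (𝓞 K) → ZMod p) {x y : K} (hx : x ≠ 0)
    (hy : y ≠ 0) : pe ψ (x * y) = pe ψ x + pe ψ y := by
  rw [pe, pe, pe, ← FractionalIdeal.spanSingleton_mul_spanSingleton,
    pr_mul ψ (spanSingleton_ne hx) (spanSingleton_ne hy)]

lemma pe_one {p : ℕ} (ψ : HeightOneSpectrum (𝓞 K) → ZMod p) : pe ψ (1 : K) = 0 := by
  rw [pe, FractionalIdeal.spanSingleton_one, pr_one]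

lemma pe_inv {p : ℕ} (ψ : HeightOneSpectrum (𝓞 K) → ZMod p) (x : K) : pe ψ x⁻¹ = - pe ψ x := by
  rw [pe, pe, ← pr_inv, FractionalIdeal.spanSingleton_inv]

lemma pe_pow {p : ℕ} (ψ : HeightOneSpectrum (𝓞 K) → ZMod p) (x : K) (n : ℕ) :
    pe ψ (x ^ n) = (n : ZMod p) * pe ψ x := by
  rw [pe, pe, ← FractionalIdeal.spanSingleton_pow, pr_pow]

lemma pe_add {p : ℕ} (ψ θ : HeightOneSpectrum (𝓞 K) → ZMod p) (x : K) :
    pe (ψ + θ) x = pe ψ x + pe θ x := pr_add _ _ _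

lemma pe_smul {p : ℕ} (c : ZMod p) (ψ : HeightOneSpectrum (𝓞 K) → ZMod p) (x : K) :
    pe (c • ψ) x = c * pe ψ x := pr_smul _ _ _

/-- the functions `ψ` of the primes which define a character of the group of the ideals prime to `T`
modulo the principal ideals generated by elements congruent to `1` modulo the primes in `T` -/
def R (p : ℕ) (T : Finset (HeightOneSpectrum (𝓞 K))) :
    Submodule (ZMod p) (HeightOneSpectrum (𝓞 K) → ZMod p) where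
  carrier := {ψ | (∀ v ∈ T, ψ v = 0) ∧
    ∀ b : 𝓞 K, b ≠ 0 → (∀ v ∈ T, b - 1 ∈ v.asIdeal) → pe ψ (b : K) = 0}
  add_mem' := by
    rintro a b ⟨ha, ha'⟩ ⟨hb, hb'⟩
    refine ⟨fun v hv => by rw [Pi.add_apply, ha v hv, hb v hv, add_zero], fun x hx hx' => ?_⟩
    rw [pe_add, ha' x hx hx', hb' x hx hx', add_zero]
  zero_mem' := ⟨fun v hv => rfl, fun x hx hx' => pr_zero _⟩
  smul_mem' := by
    rintro c a ⟨ha, ha'⟩
    refine ⟨fun v hv => by rw [Pi.smul_apply, ha v hv, smul_zero], fun x hx hx' => ?_⟩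
    rw [pe_smul, ha' x hx hx', mul_zero]

/-- `L` is a logarithm modulo `p`-th powers of the residue field of `v` -/
structure IsLg (p : ℕ) (v : HeightOneSpectrum (𝓞 K)) (L : 𝓞 K → ZMod p) : Prop where
  mul : ∀ x y, x ∉ v.asIdeal → y ∉ v.asIdeal → L (x * y) = L x + L y
  congr : ∀ x y, x ∉ v.asIdeal → x - y ∈ v.asIdeal → L x = L y
  zero_iff : ∀ x, x ∉ v.asIdeal → (L x = 0 ↔ ∃ z, x - z ^ p ∈ v.asIdeal)

end ideals

section galois

variable (K Ω : Type) [Field K] [NumberField K] [Field Ω] [Algebra K Ω]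

/-- the prime of `K` below `Q` -/
def bl (Q : Ideal (𝓞 Ω)) : Ideal (𝓞 K) := Q.comap (algebraMap (𝓞 K) (𝓞 Ω))

variable {K Ω}

/-- `σ` is a Frobenius element at `Q` -/
def IsFr (Q : Ideal (𝓞 Ω)) (σ : Ω ≃ₐ[K] Ω) : Prop :=
  ∀ x : 𝓞 Ω, σ • x - x ^ Nat.card (𝓞 K ⧸ bl K Ω Q) ∈ Q

variable (K Ω)

/-- the continuous homomorphisms from the Galois group to the field with `p` elements -/
def Ch (p : ℕ) : Submodule (ZMod p) ((Ω ≃ₐ[K] Ω) → ZMod p) where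
  carrier := {χ | (∀ g h, χ (g * h) = χ g + χ h) ∧
    ∃ U : Subgroup (Ω ≃ₐ[K] Ω), IsOpen (U : Set (Ω ≃ₐ[K] Ω)) ∧ ∀ g ∈ U, χ g = 0}
  add_mem' := by
    rintro a b ⟨ha, U, hU, hU'⟩ ⟨hb, V, hV, hV'⟩
    refine ⟨fun g h => ?_, U ⊓ V, hU.inter hV, fun g hg => ?_⟩
    · rw [Pi.add_apply, Pi.add_apply, Pi.add_apply, ha, hb]
      ring
    · rw [Pi.add_apply, hU' g hg.1, hV' g hg.2, add_zero]
  zero_mem' := ⟨fun g h => (add_zero _).symm, ⊤, isOpen_univ, fun g hg => rfl⟩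
  smul_mem' := by
    rintro c a ⟨ha, U, hU, hU'⟩
    refine ⟨fun g h => ?_, U, hU, fun g hg => ?_⟩
    · rw [Pi.smul_apply, Pi.smul_apply, Pi.smul_apply, ha, smul_add]
    · rw [Pi.smul_apply, hU' g hg, smul_zero]

/-- `χ` is trivial on the inertia groups above `v` -/
def Unr {p : ℕ} (χ : (Ω ≃ₐ[K] Ω) → ZMod p) (v : HeightOneSpectrum (𝓞 K)) : Prop :=
  ∀ Q : Ideal (𝓞 Ω), Q.IsMaximal → bl K Ω Q = v.asIdeal →
    ∀ τ ∈ Q.inertia (Ω ≃ₐ[K] Ω), χ τ = 0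

/-- the characters unramified outside `T` -/
def H (p : ℕ) (T : Finset (HeightOneSpectrum (𝓞 K))) :
    Submodule (ZMod p) ((Ω ≃ₐ[K] Ω) → ZMod p) where
  carrier := {χ | χ ∈ Ch K Ω p ∧ ∀ v, v ∉ T → Unr K Ω χ v}
  add_mem' := by
    rintro a b ⟨ha, ha'⟩ ⟨hb, hb'⟩
    refine ⟨(Ch K Ω p).add_mem ha hb, fun v hv Q hQ hQv τ hτ => ?_⟩
    rw [Pi.add_apply, ha' v hv Q hQ hQv τ hτ, hb' v hv Q hQ hQv τ hτ, add_zero]
  zero_mem' := ⟨(Ch K Ω p).zero_mem, fun v hv Q hQ hQv τ hτ => rfl⟩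
  smul_mem' := by
    rintro c a ⟨ha, ha'⟩
    refine ⟨(Ch K Ω p).smul_mem c ha, fun v hv Q hQ hQv τ hτ => ?_⟩
    rw [Pi.smul_apply, ha' v hv Q hQ hQv τ hτ, smul_zero]

variable [IsGalois K Ω]

/-- every prime has a prime of `Ω` above it -/
lemma exists_above (v : HeightOneSpectrum (𝓞 K)) :
    ∃ Q : Ideal (𝓞 Ω), Q.IsMaximal ∧ bl K Ω Q = v.asIdeal := by
  have hint : Algebra.IsIntegral (𝓞 K) (𝓞 Ω) := by
    refine ⟨fun x => ?_⟩
    exact (RingOfIntegers.isIntegral x).tower_top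
  have hv : v.asIdeal.IsMaximal := v.isMaximal
  have hk : RingHom.ker (algebraMap (𝓞 K) (𝓞 Ω)) ≤ v.asIdeal := by
    rw [(RingHom.injective_iff_ker_eq_bot _).1 (RingOfIntegers.algebraMap.injective K Ω)]
    exact bot_le
  obtain ⟨Q, hQ, hQv⟩ := Ideal.exists_ideal_over_maximal_of_isIntegral v.asIdeal hk
  exact ⟨Q, hQ, hQv⟩

/-- a prime of `Ω` above `v` -/
noncomputable def ab (v : HeightOneSpectrum (𝓞 K)) : Ideal (𝓞 Ω) := (exists_above K Ω v).choose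

lemma ab_max (v : HeightOneSpectrum (𝓞 K)) : (ab K Ω v).IsMaximal :=
  (exists_above K Ω v).choose_spec.1

lemma bl_ab (v : HeightOneSpectrum (𝓞 K)) : bl K Ω (ab K Ω v) = v.asIdeal :=
  (exists_above K Ω v).choose_spec.2

/-- a Frobenius element at the prime `v` -/
noncomputable def fr (v : HeightOneSpectrum (𝓞 K)) : Ω ≃ₐ[K] Ω :=
  (Helper27.TE.exists_frob (K := K) (ab K Ω v) (ab_max K Ω v)).choose

lemma isFr_fr (v : HeightOneSpectrum (𝓞 K)) : IsFr (ab K Ω v) (fr K Ω v) :=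
  (Helper27.TE.exists_frob (K := K) (ab K Ω v) (ab_max K Ω v)).choose_spec

variable {K Ω}

/-- the value of the character `χ` at the prime `v` -/
noncomputable def ev {p : ℕ} (χ : (Ω ≃ₐ[K] Ω) → ZMod p) (v : HeightOneSpectrum (𝓞 K)) : ZMod p :=
  χ (fr K Ω v)

lemma ev_add {p : ℕ} (χ θ : (Ω ≃ₐ[K] Ω) → ZMod p) (v : HeightOneSpectrum (𝓞 K)) :
    ev (χ + θ) v = ev χ v + ev θ v := rfl

lemma ev_smul {p : ℕ} (c : ZMod p) (χ : (Ω ≃ₐ[K] Ω) → ZMod p) (v : HeightOneSpectrum (𝓞 K)) :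
    ev (c • χ) v = c * ev χ v := rfl

lemma Ch_one {p : ℕ} {χ : (Ω ≃ₐ[K] Ω) → ZMod p} (h : χ ∈ Ch K Ω p) : χ 1 = 0 := by
  have h1 := h.1 1 1
  rw [mul_one] at h1
  exact left_eq_add.1 h1

lemma Ch_inv {p : ℕ} {χ : (Ω ≃ₐ[K] Ω) → ZMod p} (h : χ ∈ Ch K Ω p) (g : Ω ≃ₐ[K] Ω) :
    χ g⁻¹ = - χ g := by
  have h1 := h.1 g g⁻¹
  rw [mul_inv_cancel, Ch_one h] at h1
  exact eq_neg_of_add_eq_zero_right h1.symm

lemma Ch_conj {p : ℕ} {χ : (Ω ≃ₐ[K] Ω) → ZMod p} (h : χ ∈ Ch K Ω p) (g s : Ω ≃ₐ[K] Ω) :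
    χ (g * s * g⁻¹) = χ s := by
  rw [h.1, h.1, Ch_inv h]
  ring

lemma Ch_pow {p : ℕ} {χ : (Ω ≃ₐ[K] Ω) → ZMod p} (h : χ ∈ Ch K Ω p) (g : Ω ≃ₐ[K] Ω) (n : ℕ) :
    χ (g ^ n) = (n : ZMod p) * χ g := by
  induction n with
  | zero => rw [pow_zero, Ch_one h, Nat.cast_zero, zero_mul]
  | succ n ih => rw [pow_succ, h.1, ih]; push_cast; ring

end galois

end Pool.Agent.Helper45.TC
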