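import Mathlib
import Pool.Agent.Helper45.TC.Df

/-!
# Tame class field theory modulo `p`: more definitions
-/

set_option autoImplicit false

open NumberField IsDedekindDomain Module

open scoped Pointwise nonZeroDivisors

namespace Pool.Agent.Helper45.TC

variable {K : Type} [Field K] [NumberField K]

/-- the primes in `T` detect the elements whose orders are divisible by `p` -/
def Full (p : ℕ) (T : Finset (HeightOneSpectrum (𝓞 K))) : Prop :=
  ∀ a : 𝓞 K, a ≠ 0 → (∀ v : HeightOneSpectrum (𝓞 K), (p : ℤ) ∣ od v (a : K)) →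
    (∀ v ∈ T, a ∉ v.asIdeal ∧ ∃ z, a - z ^ p ∈ v.asIdeal) → ∃ c : 𝓞 K, a = c ^ p

lemma Full.mono {p : ℕ} {T T' : Finset (HeightOneSpectrum (𝓞 K))} (h : Full p T) (hT : T ⊆ T') :
    Full p T' := fun a ha hv hw => h a ha hv fun v hvT => hw v (hT hvT)

/-- the ray class characters which vanish at the primes at which the elements of `X` vanish -/
def Sh {Ω : Type} [Field Ω] [Algebra K Ω] [IsGalois K Ω] (p : ℕ)
    (T : Finset (HeightOneSpectrum (𝓞 K))) (X : Submodule (ZMod p) ((Ω ≃ₐ[K] Ω) → ZMod p)) :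
    Submodule (ZMod p) (HeightOneSpectrum (𝓞 K) → ZMod p) where
  carrier := {ψ | ψ ∈ R p T ∧ ∀ w, w ∉ T → (∀ χ ∈ X, ev χ w = 0) → ψ w = 0}
  add_mem' := by
    rintro a b ⟨ha, ha'⟩ ⟨hb, hb'⟩
    exact ⟨(R p T).add_mem ha hb, fun w hw h => by
      rw [Pi.add_apply, ha' w hw h, hb' w hw h, add_zero]⟩
  zero_mem' := ⟨(R p T).zero_mem, fun w hw h => rfl⟩
  smul_mem' := by
    rintro c a ⟨ha, ha'⟩
    exact ⟨(R p T).smul_mem c ha, fun w hw h => by rw [Pi.smul_apply, ha' w hw h, smul_zero]⟩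

/-- the characters which vanish at the primes in `W` -/
def Hz {Ω : Type} [Field Ω] [Algebra K Ω] [IsGalois K Ω] (p : ℕ)
    (W : Set (HeightOneSpectrum (𝓞 K))) : Submodule (ZMod p) ((Ω ≃ₐ[K] Ω) → ZMod p) where
  carrier := {χ | ∀ w ∈ W, ev χ w = 0}
  add_mem' := fun {a b} ha hb w hw => by rw [ev_add, ha w hw, hb w hw, add_zero]
  zero_mem' := fun w hw => rfl
  smul_mem' := fun c a ha w hw => by rw [ev_smul, ha w hw, mul_zero]

/-- the functions which vanish at the primes in `W` -/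
def Rz (p : ℕ) (W : Set (HeightOneSpectrum (𝓞 K))) :
    Submodule (ZMod p) (HeightOneSpectrum (𝓞 K) → ZMod p) where
  carrier := {ψ | ∀ w ∈ W, ψ w = 0}
  add_mem' := fun {a b} ha hb w hw => by rw [Pi.add_apply, ha w hw, hb w hw, add_zero]
  zero_mem' := fun w hw => rfl
  smul_mem' := fun c a ha w hw => by rw [Pi.smul_apply, ha w hw, smul_zero]

/-- the function `ψ` made zero on `T` -/
noncomputable def off {p : ℕ} (T : Finset (HeightOneSpectrum (𝓞 K)))
    (ψ : HeightOneSpectrum (𝓞 K) → ZMod p) : HeightOneSpectrum (𝓞 K) → ZMod p :=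
  open Classical in fun v => if v ∈ T then 0 else ψ v

/-- the primes above the positive integer `N` -/
noncomputable def ovr (K : Type) [Field K] [NumberField K] (N : ℕ) :
    Finset (HeightOneSpectrum (𝓞 K)) :=
  open Classical in
  if h : {v : HeightOneSpectrum (𝓞 K) | (N : 𝓞 K) ∈ v.asIdeal}.Finite then h.toFinset else ∅

/-- the primes of degree one with norm congruent to `1` modulo `p` -/
def Pst (p : ℕ) (v : HeightOneSpectrum (𝓞 K)) : Prop := (nm v).Prime ∧ p ∣ nm v - 1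

variable (Ω : Type) [Field Ω] [Algebra K Ω] [IsGalois K Ω]

/-- reciprocity at the primes in `Pst` for the characters unramified outside `T` -/
def Rec (p : ℕ) (T : Finset (HeightOneSpectrum (𝓞 K))) : Prop :=
  (∀ ψ ∈ R p T, ∃ χ ∈ H K Ω p T, ∀ w, w ∉ T → Pst p w → ev χ w = ψ w) ∧
    ∀ χ ∈ H K Ω p T, ∃ ψ ∈ R p T, ∀ w, w ∉ T → Pst p w → ev χ w = ψ w

end Pool.Agent.Helper45.TC
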